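import Pool.Agent.H592R2.MainW

/-!
# The W-hierarchy with respect to para-AC0 reductions is strict

The question is whether `W[t] ≠ W[t + 1]` for all `t ≥ 1`, if `FPT ≠ W[P]`. Here the closure under
fpt-reductions in the definition of `W[t]` is replaced by the closure under nonuniform para-AC0
many-one reductions (constant depth, size `f(k) n ^ c`, arbitrary functions `f` and `g` of the
parameter). For this hierarchy strictness holds, without any hypothesis: the weighted satisfiability
problem of the circuits of weft at most `t + 1` and depth at most `2 t + 3` cannot be reduced to the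
weighted satisfiability problem of the circuits of weft at most `t` and depth at most `d`, for any `d`.

The theorem is in the starting library (`Pool.Agent.H592R2.WAC0_strict`, `no_redW`), where it was not
used.
-/

set_option autoImplicit false

open Pool.Agent.H592R2

namespace Pool.Agent.Results.MP_41371c_lc.StrictForParaAC0

/-- `pWSAT t d` is the problem p-WSAT(circuits of weft at most `t` and depth at most `d`), `WAC0 t` the
class of the problems which have a nonuniform para-AC0 many-one reduction to `pWSAT t d` for some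
`d ≥ 1`.

(1) For all `t ≥ 1` and all `d` there is no such reduction from `pWSAT (t + 1) (2 t + 3)` to
`pWSAT t d`. (2) The hierarchy is strict: `WAC0 s` is a proper subset of `WAC0 t` for
all `1 ≤ s < t`. (3) Already the restricted hierarchy, with depth at most `2 t + 1` in level `t`, is
strict in the sense that `pWSAT (t + 1) (2 (t + 1) + 1)` lies in `WAC0 (t + 1)` and not in
`WAC0 t`. -/
theorem result :
    (∀ t : ℕ, 1 ≤ t → ∀ d : ℕ, ¬ ParaAC0Red (pWSAT (t + 1) (2 * t + 3)) (pWSAT t d)) ∧
    (∀ s t : ℕ, 1 ≤ s → s < t → WAC0 s ⊂ WAC0 t) ∧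
    (∀ t : ℕ, 1 ≤ t → pWSAT (t + 1) (2 * (t + 1) + 1) ∈ WAC0 (t + 1) ∧
      pWSAT (t + 1) (2 * (t + 1) + 1) ∉ WAC0 t) := by
  have h1 : ∀ t : ℕ, 1 ≤ t → ∀ d : ℕ, ¬ ParaAC0Red (pWSAT (t + 1) (2 * t + 3)) (pWSAT t d) := by
    intro t ht d
    obtain ⟨s, rfl⟩ : ∃ s, t = s + 1 := ⟨t - 1, by omega⟩
    have h := no_redW s d
    have e : 3 + 2 * (s + 1) = 2 * (s + 1) + 3 := by ring
    rwa [e] at h
  refine ⟨h1, ?_, ?_⟩
  · intro s t hs hst
    induction t, hst using Nat.le_induction with
    | base => exact WAC0_strict s hs
    | succ n hn ih => exact ih.trans (WAC0_strict n (by omega))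
  · intro t ht
    refine ⟨⟨_, by omega, ParaAC0Red.rfl' _⟩, ?_⟩
    rintro ⟨d, -, hd⟩
    exact h1 t ht d (by
      have e : 2 * (t + 1) + 1 = 2 * t + 3 := by ring
      rwa [e] at hd)

end Pool.Agent.Results.MP_41371c_lc.StrictForParaAC0
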